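import Pool.Agent.H840.MX.Stm2

/-!
# MP_afef76, S_GD: four lines through a point meet a smooth cubic in twelve different points
-/

set_option autoImplicit false

namespace Pool.Agent.H230.MXGD

open MvPolynomial Pool.Agent.T2H40.MI Pool.Agent.H840.MX

/-- the restriction of `F` to the line `b + x O` -/
noncomputable def pl (b O : Fin 3 → ℂ) (F : S) : Polynomial ℂ :=
  aeval (fun i => Polynomial.C (b i) + Polynomial.C (O i) * Polynomial.X) F

/-- the derivative of `F` in the direction `O` -/
noncomputable def dO (O : Fin 3 → ℂ) (F : S) : S := ∑ i, C (O i) * pderiv i F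

theorem pl_eval (b O : Fin 3 → ℂ) (F : S) (x : ℂ) :
    (pl b O F).eval x = eval (b + x • O) F := by
  unfold pl
  induction F using MvPolynomial.induction_on with
  | C a => simp
  | add p q hp hq => rw [map_add, Polynomial.eval_add, hp, hq, map_add]
  | mul_X p i hp =>
    rw [map_mul, Polynomial.eval_mul, hp, map_mul, aeval_X, eval_X]
    simp only [Polynomial.eval_add, Polynomial.eval_mul, Polynomial.eval_C, Polynomial.eval_X,
      Pi.add_apply, Pi.smul_apply, smul_eq_mul]
    ring

theorem pl_deriv (b O : Fin 3 → ℂ) (F : S) :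
    Polynomial.derivative (pl b O F) = pl b O (dO O F) := by
  unfold pl dO
  induction F using MvPolynomial.induction_on with
  | C a => simp
  | add p q hp hq =>
    rw [map_add, Polynomial.derivative_add, hp, hq, ← map_add, ← Finset.sum_add_distrib]
    congr 1
    refine Finset.sum_congr rfl fun i _ => ?_
    rw [map_add]; ring
  | mul_X p j hp =>
    have hl : Polynomial.derivative (Polynomial.C (b j) + Polynomial.C (O j) * Polynomial.X) =
        Polynomial.C (O j) := by simp
    have h1 : ∀ i : Fin 3, pderiv i (p * X j : S) = pderiv i p * X j + p * pderiv i (X j) := by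
      intro i
      rw [Derivation.leibniz]
      simp only [smul_eq_mul]
      ring
    have h2 : ∑ i, C (O i) * pderiv i (p * X j : S) =
        (∑ i, C (O i) * pderiv i p) * X j + p * C (O j) := by
      simp only [h1]
      have h3 : ∀ i : Fin 3, C (O i) * (pderiv i p * X j + p * pderiv i (X j) : S) =
          C (O i) * pderiv i p * X j + p * (C (O i) * pderiv i (X j)) := fun i => by ring
      simp only [h3]
      rw [Finset.sum_add_distrib, ← Finset.sum_mul, ← Finset.mul_sum]
      congr 2
      rw [Finset.sum_eq_single j]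
      · rw [pderiv_X_self, mul_one]
      · intro i _ hij
        rw [pderiv_X_of_ne hij.symm, mul_zero]
      · intro h; exact absurd (Finset.mem_univ _) h
    rw [h2, map_mul (aeval _) p (X j), Polynomial.derivative_mul, hp, aeval_X, hl,
      map_add (aeval _), map_mul (aeval _), map_mul (aeval _), aeval_X, aeval_C]
    rfl

theorem pl_expand (b O : Fin 3 → ℂ) (F : S) : pl b O F = ∑ m ∈ F.support,
    Polynomial.C (coeff m F) * ∏ i, (Polynomial.C (b i) + Polynomial.C (O i) * Polynomial.X) ^ m i := by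
  unfold pl
  rw [aeval_def, eval₂_eq']
  rfl

theorem lin_nd (b o : ℂ) : (Polynomial.C b + Polynomial.C o * Polynomial.X).natDegree ≤ 1 := by
  compute_degree

theorem term_nd (b O : Fin 3 → ℂ) (m : Fin 3 →₀ ℕ) (c : ℂ) :
    (Polynomial.C c * ∏ i, (Polynomial.C (b i) + Polynomial.C (O i) * Polynomial.X) ^ m i).natDegree
      ≤ m 0 + m 1 + m 2 ∧
    (Polynomial.C c * ∏ i, (Polynomial.C (b i) + Polynomial.C (O i) * Polynomial.X) ^ m i).coeff
      (m 0 + m 1 + m 2) = c * ∏ i, O i ^ m i := by
  have hp : ∀ i, ((Polynomial.C (b i) + Polynomial.C (O i) * Polynomial.X) ^ m i).natDegree ≤ m i ∧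
      ((Polynomial.C (b i) + Polynomial.C (O i) * Polynomial.X) ^ m i).coeff (m i) = O i ^ m i := by
    intro i
    constructor
    · have := Polynomial.natDegree_pow_le_of_le (m i) (lin_nd (b i) (O i))
      simpa using this
    · have := Polynomial.coeff_pow_of_natDegree_le (m := m i) (lin_nd (b i) (O i))
      rw [mul_one] at this
      rw [this]
      simp
  rw [Fin.prod_univ_three, Fin.prod_univ_three]
  have h01 := Polynomial.natDegree_mul_le_of_le (hp 0).1 (hp 1).1
  have h012 := Polynomial.natDegree_mul_le_of_le h01 (hp 2).1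
  constructor
  · exact (Polynomial.natDegree_C_mul_le _ _).trans h012
  · rw [Polynomial.coeff_C_mul, Polynomial.coeff_mul_add_eq_of_natDegree_le h01 (hp 2).1,
      Polynomial.coeff_mul_add_eq_of_natDegree_le (hp 0).1 (hp 1).1, (hp 0).2, (hp 1).2, (hp 2).2]

theorem pl_nd (b O : Fin 3 → ℂ) {F : S} (hF : F.IsHomogeneous 3) : (pl b O F).natDegree ≤ 3 := by
  rw [pl_expand]
  apply Polynomial.natDegree_sum_le_of_forall_le
  intro m hm
  have := (term_nd b O m (coeff m F)).1
  rwa [hom_deg hF hm] at this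

theorem pl_coeff (b O : Fin 3 → ℂ) {F : S} (hF : F.IsHomogeneous 3) :
    (pl b O F).coeff 3 = eval O F := by
  rw [pl_expand, Polynomial.finsetSum_coeff, eval_eq']
  refine Finset.sum_congr rfl fun m hm => ?_
  have := (term_nd b O m (coeff m F)).2
  rwa [hom_deg hF hm] at this

/-- a dual basis -/
theorem exists_basis (O : Fin 3 → ℂ) (hO : O ≠ 0) : ∃ e f a b c : Fin 3 → ℂ,
    a ⬝ᵥ O = 1 ∧ a ⬝ᵥ e = 0 ∧ a ⬝ᵥ f = 0 ∧ b ⬝ᵥ O = 0 ∧ b ⬝ᵥ e = 1 ∧ b ⬝ᵥ f = 0 ∧
    c ⬝ᵥ O = 0 ∧ c ⬝ᵥ e = 0 ∧ c ⬝ᵥ f = 1 := by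
  obtain ⟨k, hk⟩ := Function.ne_iff.mp hO
  have hk' : O k ≠ 0 := hk
  fin_cases k
  · refine ⟨![0, 1, 0], ![0, 0, 1], ![1 / O 0, 0, 0], ![-(O 1) / O 0, 1, 0],
      ![-(O 2) / O 0, 0, 1], ?_⟩
    have hk'' : O 0 ≠ 0 := hk'
    simp only [dotProduct, Fin.sum_univ_three]
    refine ⟨?_, ?_, ?_, ?_, ?_, ?_, ?_, ?_, ?_⟩ <;> simp <;> field_simp <;> ring
  · refine ⟨![1, 0, 0], ![0, 0, 1], ![0, 1 / O 1, 0], ![1, -(O 0) / O 1, 0],
      ![0, -(O 2) / O 1, 1], ?_⟩
    have hk'' : O 1 ≠ 0 := hk'
    simp only [dotProduct, Fin.sum_univ_three]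
    refine ⟨?_, ?_, ?_, ?_, ?_, ?_, ?_, ?_, ?_⟩ <;> simp <;> field_simp <;> ring
  · refine ⟨![1, 0, 0], ![0, 1, 0], ![0, 0, 1 / O 2], ![1, 0, -(O 0) / O 2],
      ![0, 1, -(O 1) / O 2], ?_⟩
    have hk'' : O 2 ≠ 0 := hk'
    simp only [dotProduct, Fin.sum_univ_three]
    refine ⟨?_, ?_, ?_, ?_, ?_, ?_, ?_, ?_, ?_⟩ <;> simp <;> field_simp <;> ring

theorem hom_ndvd {F G : S} {d : ℕ} (hF : F.IsHomogeneous 3) (hF0 : F ≠ 0) (hG : G.IsHomogeneous d)
    (hG0 : G ≠ 0) (hd : d < 3) : ¬ F ∣ G := by
  rintro ⟨a, ha⟩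
  have ha0 : a ≠ 0 := by
    rintro rfl
    rw [mul_zero] at ha
    exact hG0 ha
  have h1 := totalDegree_mul_of_isDomain hF0 ha0
  rw [← ha, hF.totalDegree hF0, hG.totalDegree hG0] at h1
  omega

theorem GD (h1 : S_TRV) : S_GD := by
  classical
  intro F hsm hirr
  have hF := hsm.hom
  have hF0 : F ≠ 0 := hirr.ne_zero
  have hprime : Prime F := hirr.prime
  -- the point O
  obtain ⟨O, hO⟩ : ∃ O : Fin 3 → ℂ, eval O F ≠ 0 := by
    by_contra hcon
    push Not at hcon
    exact hF0 (MvPolynomial.funext fun x => by rw [hcon x, map_zero])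
  have hO0 : O ≠ 0 := by
    rintro rfl
    apply hO
    have := eval_smul_hom hF 0 (0 : Fin 3 → ℂ)
    rw [smul_zero] at this
    rw [this]; simp
  obtain ⟨e, f, a, b, c, haO, hae, haf, hbO, hbe, hbf, hcO, hce, hcf⟩ := exists_basis O hO0
  -- the points on the lines
  let q : ℕ → ℂ → Fin 3 → ℂ := fun j x => (e + (j : ℂ) • f) + x • O
  have hbq : ∀ j x, b ⬝ᵥ q j x = 1 := by
    intro j x
    simp only [q, dotProduct_add, dotProduct_smul, hbO, hbe, hbf]
    simp
  have hcq : ∀ j x, c ⬝ᵥ q j x = j := by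
    intro j x
    simp only [q, dotProduct_add, dotProduct_smul, hcO, hce, hcf]
    simp
  have haq : ∀ j x, a ⬝ᵥ q j x = x := by
    intro j x
    simp only [q, dotProduct_add, dotProduct_smul, haO, hae, haf]
    simp
  have hq0 : ∀ j x, q j x ≠ 0 := by
    intro j x h
    have := hbq j x
    rw [h, dotProduct_zero] at this
    exact zero_ne_one this
  have hqinj : ∀ j x j' x' (t : ℂ), q j x = t • q j' x' → j = j' ∧ x = x' := by
    intro j x j' x' t h
    have e1 : b ⬝ᵥ q j x = t * (b ⬝ᵥ q j' x') := by rw [h, dotProduct_smul, smul_eq_mul]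
    rw [hbq, hbq, mul_one] at e1
    rw [← e1, one_smul] at h
    constructor
    · have e2 : c ⬝ᵥ q j x = c ⬝ᵥ q j' x' := by rw [h]
      rw [hcq, hcq] at e2
      exact_mod_cast e2
    · have e2 : a ⬝ᵥ q j x = a ⬝ᵥ q j' x' := by rw [h]
      rwa [haq, haq] at e2
  -- the quadratic form H
  let H : S := dO O F
  have hH : H.IsHomogeneous 2 :=
    IsHomogeneous.sum _ _ _ fun i _ => (hF.pderiv (i := i)).C_mul _
  have hHO : eval O H = 3 * eval O F := by
    have h := congrArg (eval O) hF.sum_X_mul_pderiv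
    simp only [H, dO, map_sum, map_mul, eval_X, eval_C, nsmul_eq_mul] at h ⊢
    rw [h]; norm_num
  have hH0 : H ≠ 0 := by
    intro h
    rw [h, map_zero] at hHO
    rcases mul_eq_zero.mp hHO.symm with h3 | h3
    · norm_num at h3
    · exact hO h3
  have hndvdH : ¬ F ∣ H := hom_ndvd hF hF0 hH hH0 (by norm_num)
  -- bad lines
  let bad : ℕ → Prop := fun j => ∃ x : ℂ, eval (q j x) F = 0 ∧ eval (q j x) H = 0
  have hbad : ((Finset.range 15).filter bad).card ≤ 11 := by
    by_contra hcon
    push Not at hcon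
    obtain ⟨B, hB, hBc⟩ := Finset.exists_subset_card_eq
      (show 12 ≤ ((Finset.range 15).filter bad).card by omega)
    let em := B.orderEmbOfFin hBc
    have hem : ∀ i, bad (em i) := by
      intro i
      have := hB (B.orderEmbOfFin_mem hBc i)
      exact (Finset.mem_filter.mp this).2
    choose x hx using hem
    have hTw : Twelve F (H ^ 2) (fun i => q (em i) (x i)) :=
      { hF := hF
        hg := hH.pow 2
        irr := hirr
        ndvd := fun h => hndvdH (hprime.dvd_of_dvd_pow h)
        ne := fun i => hq0 _ _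
        diff := fun i j hij t h => hij (em.injective (hqinj _ _ _ _ t h).1)
        zeroF := fun i => (hx i).1
        zerog := fun i => by rw [map_pow, (hx i).2]; norm_num }
    have h2 := (h1 F (H ^ 2) _ hTw).2 0 b (by rw [hbq]; exact one_ne_zero)
    apply h2
    have hgr : grad (H ^ 2) (q (em 0) (x 0)) = 0 := by
      funext i
      unfold grad
      rw [pderiv_pow]
      simp only [map_mul, map_pow, (hx 0).2]
      simp
    apply Matrix.det_eq_zero_of_row_eq_zero (2 : Fin 3)
    intro j
    show grad (H ^ 2) (q (em 0) (x 0)) j = 0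
    rw [hgr]; rfl
  have hgood : 4 ≤ ((Finset.range 15).filter fun j => ¬ bad j).card := by
    have := Finset.card_filter_add_card_filter_not (s := Finset.range 15) bad
    rw [Finset.card_range] at this
    omega
  obtain ⟨G, hG, hGc⟩ := Finset.exists_subset_card_eq hgood
  let em := G.orderEmbOfFin hGc
  have hem : ∀ i, ¬ bad (em i) := by
    intro i
    have := hG (G.orderEmbOfFin_mem hGc i)
    exact (Finset.mem_filter.mp this).2
  -- three roots on each good line
  have hroots : ∀ i : Fin 4, ∃ x : Fin 3 → ℂ, Function.Injective x ∧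
      ∀ k, eval (q (em i) (x k)) F = 0 := by
    intro i
    let p := pl (e + ((em i : ℕ) : ℂ) • f) O F
    have hp3 : p.coeff 3 = eval O F := pl_coeff _ _ hF
    have hp0 : p ≠ 0 := by
      intro h
      rw [h, Polynomial.coeff_zero] at hp3
      exact hO hp3.symm
    have hnd : p.natDegree = 3 := by
      apply le_antisymm (pl_nd _ _ hF)
      apply Polynomial.le_natDegree_of_ne_zero
      rw [hp3]; exact hO
    have hpe : ∀ x, p.eval x = eval (q (em i) x) F := fun x => pl_eval _ _ _ _
    have hpd : ∀ x, (Polynomial.derivative p).eval x = eval (q (em i) x) H := by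
      intro x
      show (Polynomial.derivative (pl (e + ((em i : ℕ) : ℂ) • f) O F)).eval x = _
      rw [pl_deriv, pl_eval]
    have hnod : p.roots.Nodup := by
      rw [Multiset.nodup_iff_count_le_one]
      intro t
      rw [Polynomial.count_roots]
      by_contra hcon
      push Not at hcon
      rw [Polynomial.one_lt_rootMultiplicity_iff_isRoot hp0] at hcon
      apply hem i
      refine ⟨t, ?_, ?_⟩
      · rw [← hpe]; exact hcon.1
      · rw [← hpd]; exact hcon.2
    have hcard : p.roots.toFinset.card = 3 := by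
      rw [Multiset.toFinset_card_of_nodup hnod, IsAlgClosed.card_roots_eq_natDegree, hnd]
    let eq := (Finset.equivFinOfCardEq hcard).symm
    refine ⟨fun k => (eq k : ℂ), fun k k' h => eq.injective (Subtype.ext h), fun k => ?_⟩
    have hm := (eq k).2
    rw [Multiset.mem_toFinset, Polynomial.mem_roots hp0] at hm
    rw [← hpe]; exact hm
  choose x hxinj hx using hroots
  -- the equations of the lines
  let r : Fin 4 → Fin 3 → ℂ := fun i => c - ((em i : ℕ) : ℂ) • b
  have hrq : ∀ i j y, r i ⬝ᵥ q j y = (j : ℂ) - ((em i : ℕ) : ℂ) := by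
    intro i j y
    simp only [r, sub_dotProduct, smul_dotProduct, hbq, hcq]
    simp
  let g : S := ∏ i, lin (r i)
  have hg : g.IsHomogeneous 4 := by
    have := IsHomogeneous.prod Finset.univ (fun i => lin (r i)) (fun _ => 1)
      (fun i _ => lin_hom (r i))
    simpa using this
  have hgF : ¬ F ∣ g := by
    intro h
    obtain ⟨i, -, hi⟩ := hprime.exists_mem_finset_dvd h
    refine hom_ndvd hF hF0 (lin_hom (r i)) (lin_ne_zero ?_) (by norm_num) hi
    intro hri
    have := hrq i (em i + 1) 0
    rw [hri, zero_dotProduct] at this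
    push_cast at this
    have h3 : (1 : ℂ) = 0 := by linear_combination -this
    exact one_ne_zero h3
  let idx : Fin 12 ≃ Fin 4 × Fin 3 := (finProdFinEquiv (m := 4) (n := 3)).symm
  let Q : Fin 12 → Fin 3 → ℂ := fun i => q (em (idx i).1) (x (idx i).1 (idx i).2)
  have hQ : Twelve F g Q :=
    { hF := hF
      hg := hg
      irr := hirr
      ndvd := hgF
      ne := fun i => hq0 _ _
      diff := by
        intro i j hij t h
        apply hij
        apply idx.injective
        obtain ⟨h2, h3⟩ := hqinj _ _ _ _ t h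
        have h4 : (idx i).1 = (idx j).1 := em.injective h2
        have h5 : (idx i).2 = (idx j).2 := by
          apply hxinj (idx j).1
          rw [← h3, h4]
        exact Prod.ext h4 h5
      zeroF := fun i => hx _ _
      zerog := by
        intro i
        simp only [g, map_prod]
        apply Finset.prod_eq_zero (Finset.mem_univ (idx i).1)
        rw [eval_lin, hrq]
        ring }
  refine ⟨g, Fin.init (α := fun _ => Fin 3 → ℂ) Q, Q (Fin.last 11), ?_⟩
  rw [Fin.snoc_init_self]
  exact hQ

end Pool.Agent.H230.MXGD
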